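import Mathlib

/-!
Discrete-time branching random walks, their extinction probabilities and the fixed points of
their generating function.
-/

set_option autoImplicit false

open MeasureTheory

namespace Pool.Agent.Hhelper96.BRW

/-- Configurations `S_X` are the finitely supported `X → ℕ`; every set of configurations is
measurable. -/
instance confMeasurableSpace (X : Type) : MeasurableSpace (X →₀ ℕ) := ⊤

variable {X : Type}

/-- The probability space of the branching random walk `(X, μ)`: independent configurations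
`ω (n, x, i)`, of law `μ x`, for `n : ℕ`, `x : X` and `i : ℕ`. -/
noncomputable def law (μ : X → PMF (X →₀ ℕ)) : Measure (ℕ × X × ℕ → (X →₀ ℕ)) :=
  Measure.infinitePi (fun j : ℕ × X × ℕ => (μ j.2.1).toMeasure)

/-- The process started from one particle at `x`: at time `n` the particles number `0, 1, 2, ...` at
the site `y` are replaced by the configurations `ω (n, y, 0), ω (n, y, 1), ...`. -/
noncomputable def process (x : X) (ω : ℕ × X × ℕ → (X →₀ ℕ)) : ℕ → (X →₀ ℕ)
  | 0 => Finsupp.single x 1
  | n + 1 => (process x ω n).sum (fun y k => ∑ i ∈ Finset.range k, ω (n, y, i))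

/-- The probability of extinction in `A`, started from one particle at `x`. -/
noncomputable def extinction (μ : X → PMF (X →₀ ℕ)) (A : Set X) (x : X) : ℝ :=
  (law μ).real {ω | ∃ N : ℕ, ∀ n ≥ N, ∀ y ∈ A, process x ω n y = 0}

/-- The generating function `G`. -/
noncomputable def genFun (μ : X → PMF (X →₀ ℕ)) (z : X → ℝ) (x : X) : ℝ :=
  ∑' f : X →₀ ℕ, (μ x f).toReal * f.prod (fun y k => z y ^ k)

/-- The set `F_G` of fixed points of `G` in `[0,1]^X`. -/
def fixedPoints (μ : X → PMF (X →₀ ℕ)) : Set (X → ℝ) :=
  {z | (∀ x, 0 ≤ z x ∧ z x ≤ 1) ∧ genFun μ z = z}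

/-- The set `E_G` of extinction probability vectors. -/
def extinctionVectors (μ : X → PMF (X →₀ ℕ)) : Set (X → ℝ) :=
  {z | ∃ A : Set X, z = extinction μ A}

/-- The mean number `m_{xy}` of children at `y` of a particle at `x`. -/
noncomputable def mean (μ : X → PMF (X →₀ ℕ)) (x y : X) : ENNReal :=
  ∑' f : X →₀ ℕ, μ x f * (f y : ENNReal)

/-- Irreducibility: any two sites are joined by a chain of steps with positive mean. -/
def Irreducible (μ : X → PMF (X →₀ ℕ)) : Prop :=
  ∀ x y : X, Relation.ReflTransGen (fun a b => 0 < mean μ a b) x y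

/-- Automorphisms: `μ_{γ x}(f ∘ γ⁻¹) = μ_x(f)`. -/
def IsAutomorphism (μ : X → PMF (X →₀ ℕ)) (γ : Equiv.Perm X) : Prop :=
  ∀ (x : X) (f : X →₀ ℕ), μ (γ x) (Finsupp.equivMapDomain γ f) = μ x f

/-- Quasi-transitivity: finitely many sites meet every orbit of the automorphism group. -/
def QuasiTransitive (μ : X → PMF (X →₀ ℕ)) : Prop :=
  ∃ S : Finset X, ∀ x : X, ∃ s ∈ S, ∃ γ : Equiv.Perm X, IsAutomorphism μ γ ∧ γ s = x

/-- The class `𝒞` (for infinite countable `X`): irreducible, quasi-transitive, with almost sure
extinction in every single site from every starting site. -/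
def InClassC (μ : X → PMF (X →₀ ℕ)) : Prop :=
  Irreducible μ ∧ QuasiTransitive μ ∧ ∀ x y : X, extinction μ {x} y = 1

end Pool.Agent.Hhelper96.BRW
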