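import Pool.Agent.Hhelper96.BRW.Meas

/-!
A branching random walk on `ℤ` with drift to the right: a particle at `x` is replaced by two
particles at `x + 1` with probability `28/31` and by one particle at `x - 1` with probability `3/31`.
-/

set_option autoImplicit false
set_option linter.unusedSectionVars false

open MeasureTheory ProbabilityTheory Filter Topology

namespace Pool.Agent.Hhelper96.BRW

/-- two particles at the right neighbour -/
noncomputable def two (x : ℤ) : ℤ →₀ ℕ := Finsupp.single (x + 1) 2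

/-- one particle at the left neighbour -/
noncomputable def one (x : ℤ) : ℤ →₀ ℕ := Finsupp.single (x - 1) 1

theorem two_ne_one (x : ℤ) : two x ≠ one x := by
  intro h
  have := DFunLike.congr_fun h (x + 1)
  unfold two one at this
  rw [Finsupp.single_eq_same, Finsupp.single_apply, if_neg (by omega)] at this
  omega

open Classical in
/-- the branching law -/
noncomputable def mu0 (x : ℤ) : PMF (ℤ →₀ ℕ) :=
  PMF.ofFinset (fun f => if f = two x then 28 / 31 else if f = one x then 3 / 31 else 0)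
    {two x, one x}
    (by
      rw [Finset.sum_pair (two_ne_one x), if_pos rfl, if_neg (two_ne_one x).symm, if_pos rfl,
        ENNReal.div_add_div_same]
      have : (28 + 3 : ENNReal) = 31 := by norm_num
      rw [this]
      exact ENNReal.div_self (by norm_num) (by norm_num))
    (by
      intro f hf
      simp only [Finset.mem_insert, Finset.mem_singleton, not_or] at hf
      rw [if_neg hf.1, if_neg hf.2])

theorem mu0_two (x : ℤ) : mu0 x (two x) = 28 / 31 := by
  unfold mu0
  rw [PMF.ofFinset_apply, if_pos rfl]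

theorem mu0_one (x : ℤ) : mu0 x (one x) = 3 / 31 := by
  unfold mu0
  rw [PMF.ofFinset_apply, if_neg (two_ne_one x).symm, if_pos rfl]

theorem mu0_zero {x : ℤ} {f : ℤ →₀ ℕ} (h1 : f ≠ two x) (h2 : f ≠ one x) : mu0 x f = 0 := by
  unfold mu0
  rw [PMF.ofFinset_apply, if_neg h1, if_neg h2]

theorem tsum_mu0 (x : ℤ) (F : (ℤ →₀ ℕ) → ENNReal) :
    ∑' f, mu0 x f * F f = 28 / 31 * F (two x) + 3 / 31 * F (one x) := by
  classical
  rw [tsum_eq_sum (s := {two x, one x})]
  · rw [Finset.sum_pair (two_ne_one x), mu0_two, mu0_one]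
  · intro f hf
    simp only [Finset.mem_insert, Finset.mem_singleton, not_or] at hf
    rw [mu0_zero hf.1 hf.2, zero_mul]

theorem tsum_mu0_real (x : ℤ) (F : (ℤ →₀ ℕ) → ℝ) :
    ∑' f, (mu0 x f).toReal * F f = 28 / 31 * F (two x) + 3 / 31 * F (one x) := by
  classical
  rw [tsum_eq_sum (s := {two x, one x})]
  · rw [Finset.sum_pair (two_ne_one x), mu0_two, mu0_one]
    simp
  · intro f hf
    simp only [Finset.mem_insert, Finset.mem_singleton, not_or] at hf
    rw [mu0_zero hf.1 hf.2]
    simp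

theorem genFun_mu0 (z : ℤ → ℝ) (x : ℤ) :
    genFun mu0 z x = 28 / 31 * z (x + 1) ^ 2 + 3 / 31 * z (x - 1) := by
  unfold genFun
  rw [tsum_mu0_real]
  unfold two one
  rw [Finsupp.prod_single_index (by simp), Finsupp.prod_single_index (by simp), pow_one]

/-! ### class membership, except local extinction -/

theorem mean_right (x : ℤ) : 0 < mean mu0 x (x + 1) := by
  unfold mean
  rw [tsum_mu0]
  unfold two
  rw [Finsupp.single_eq_same]
  apply lt_of_lt_of_le _ le_self_add
  apply ENNReal.mul_pos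
  · norm_num
  · norm_num

theorem mean_left (x : ℤ) : 0 < mean mu0 x (x - 1) := by
  unfold mean
  rw [tsum_mu0]
  unfold one
  rw [Finsupp.single_eq_same]
  apply lt_of_lt_of_le _ le_add_self
  apply ENNReal.mul_pos
  · norm_num
  · norm_num

theorem irreducible_mu0 : Irreducible mu0 := by
  have hR : ∀ (x : ℤ) (n : ℕ), Relation.ReflTransGen (fun a b => 0 < mean mu0 a b) x (x + n) := by
    intro x n
    induction n with
    | zero => simpa using Relation.ReflTransGen.refl
    | succ n ih =>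
      have h := mean_right (x + n)
      have e : x + ((n + 1 : ℕ) : ℤ) = x + n + 1 := by push_cast; ring
      rw [e]
      exact ih.tail h
  have hL : ∀ (x : ℤ) (n : ℕ), Relation.ReflTransGen (fun a b => 0 < mean mu0 a b) x (x - n) := by
    intro x n
    induction n with
    | zero => simpa using Relation.ReflTransGen.refl
    | succ n ih =>
      have h := mean_left (x - n)
      have e : x - ((n + 1 : ℕ) : ℤ) = x - n - 1 := by push_cast; ring
      rw [e]
      exact ih.tail h
  intro x y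
  rcases le_total x y with h | h
  · have := hR x (y - x).toNat
    rwa [Int.toNat_of_nonneg (by omega), add_sub_cancel] at this
  · have := hL x (x - y).toNat
    rwa [Int.toNat_of_nonneg (by omega), sub_sub_cancel] at this

theorem automorphism_add (k : ℤ) : IsAutomorphism mu0 (Equiv.addRight k) := by
  intro x f
  have e1 : Finsupp.equivMapDomain (Equiv.addRight k) (two x) = two (x + k) := by
    unfold two
    rw [Finsupp.equivMapDomain_single]
    congr 1
    simp only [Equiv.coe_addRight]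
    ring
  have e2 : Finsupp.equivMapDomain (Equiv.addRight k) (one x) = one (x + k) := by
    unfold one
    rw [Finsupp.equivMapDomain_single]
    congr 1
    simp only [Equiv.coe_addRight]
    ring
  have hinj : Function.Injective (Finsupp.equivMapDomain (M := ℕ) (Equiv.addRight k)) := by
    intro g g' h
    ext y
    have := DFunLike.congr_fun h (Equiv.addRight k y)
    rwa [Finsupp.equivMapDomain_apply, Finsupp.equivMapDomain_apply, Equiv.symm_apply_apply] at this
  have hx : (Equiv.addRight k) x = x + k := rfl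
  rw [hx]
  by_cases h1 : f = two x
  · rw [h1, e1, mu0_two, mu0_two]
  · by_cases h2 : f = one x
    · rw [h2, e2, mu0_one, mu0_one]
    · rw [mu0_zero h1 h2, mu0_zero]
      · intro h
        rw [← e1] at h
        exact h1 (hinj h)
      · intro h
        rw [← e2] at h
        exact h2 (hinj h)

theorem quasiTransitive_mu0 : QuasiTransitive mu0 := by
  refine ⟨{0}, fun x => ⟨0, Finset.mem_singleton_self _, Equiv.addRight x, automorphism_add x, ?_⟩⟩
  simp

/-! ### paths -/

/-- the exponential weight -/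
noncomputable def BB (y : ℤ) : ENNReal := ENNReal.ofReal ((9 / 49 : ℝ) ^ y)

theorem contraction (y : ℤ) :
    ∑' f, mu0 y f * weight BB f = ENNReal.ofReal (121303 / 141267) * BB y := by
  rw [tsum_mu0]
  unfold two one
  rw [weight_single, weight_single]
  unfold BB
  have h28 : (28 / 31 : ENNReal) = ENNReal.ofReal (28 / 31) := by
    rw [ENNReal.ofReal_div_of_pos (by norm_num)]
    norm_num
  have h3 : (3 / 31 : ENNReal) = ENNReal.ofReal (3 / 31) := by
    rw [ENNReal.ofReal_div_of_pos (by norm_num)]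
    norm_num
  have h2 : ((2 : ℕ) : ENNReal) = ENNReal.ofReal 2 := by norm_num
  have h1 : ((1 : ℕ) : ENNReal) = ENNReal.ofReal 1 := by norm_num
  have hp : (0 : ℝ) < (9 / 49 : ℝ) ^ y := zpow_pos (by norm_num) y
  rw [h28, h3, h2, h1, ← ENNReal.ofReal_mul (by norm_num), ← ENNReal.ofReal_mul (by norm_num),
    ← ENNReal.ofReal_mul (by norm_num), ← ENNReal.ofReal_mul (by norm_num),
    ← ENNReal.ofReal_mul (by norm_num), ← ENNReal.ofReal_add (by positivity) (by positivity)]
  congr 1
  rw [zpow_add₀ (by norm_num), zpow_sub₀ (by norm_num), zpow_one]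
  field_simp
  norm_num

theorem ae_offspring : ∀ᵐ ω ∂(law mu0), ∀ j : ℕ × ℤ × ℕ, ω j = two j.2.1 ∨ ω j = one j.2.1 := by
  rw [ae_all_iff]
  intro j
  have h1 : MeasurePreserving (Function.eval j) (law mu0) ((mu0 j.2.1).toMeasure) :=
    measurePreserving_eval_infinitePi (fun j : ℕ × ℤ × ℕ => (mu0 j.2.1).toMeasure) j
  have h2 : ∀ᵐ f ∂((mu0 j.2.1).toMeasure), f = two j.2.1 ∨ f = one j.2.1 := by
    rw [ae_iff, PMF.toMeasure_apply_eq_zero_iff _ (MeasurableSet.of_discrete)]
    rw [Set.disjoint_left]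
    intro f hf hf'
    rw [PMF.mem_support_iff] at hf
    apply hf
    simp only [Set.mem_ofPred_eq, not_or] at hf'
    exact mu0_zero hf'.1 hf'.2
  exact h1.quasiMeasurePreserving.ae h2

variable {x : ℤ} {ω : ℕ × ℤ × ℕ → (ℤ →₀ ℕ)}

theorem process_ge {n : ℕ} {y : ℤ} (hy : 0 < process x ω n y) (z : ℤ) :
    ω (n, y, 0) z ≤ process x ω (n + 1) z := by
  have h1 : process x ω (n + 1) = ∑ y ∈ (process x ω n).support,
      ∑ i ∈ Finset.range (process x ω n y), ω (n, y, i) := rfl
  have hys : y ∈ (process x ω n).support := by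
    rw [Finsupp.mem_support_iff]; omega
  rw [h1, Finsupp.finsetSum_apply]
  have h2 : ω (n, y, 0) z ≤ (∑ i ∈ Finset.range (process x ω n y), ω (n, y, i)) z := by
    rw [Finsupp.finsetSum_apply]
    exact Finset.single_le_sum (f := fun i => ω (n, y, i) z) (fun _ _ => Nat.zero_le _)
      (Finset.mem_range.2 hy)
  exact h2.trans (Finset.single_le_sum
    (f := fun y => (∑ i ∈ Finset.range (process x ω n y), ω (n, y, i)) z)
    (fun _ _ => Nat.zero_le _) hys)

theorem child (hω : ∀ j : ℕ × ℤ × ℕ, ω j = two j.2.1 ∨ ω j = one j.2.1) {n : ℕ} {y : ℤ}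
    (hy : 0 < process x ω n y) :
    0 < process x ω (n + 1) (y + 1) ∨ 0 < process x ω (n + 1) (y - 1) := by
  rcases hω (n, y, 0) with h | h
  · left
    have h1 := process_ge hy (y + 1)
    rw [h] at h1
    unfold two at h1
    simp only [Finsupp.single_eq_same] at h1
    omega
  · right
    have h1 := process_ge hy (y - 1)
    rw [h] at h1
    unfold one at h1
    simp only [Finsupp.single_eq_same] at h1
    omega

theorem parent (hω : ∀ j : ℕ × ℤ × ℕ, ω j = two j.2.1 ∨ ω j = one j.2.1) {n : ℕ} {z : ℤ}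
    (hz : 0 < process x ω (n + 1) z) : ∃ y, 0 < process x ω n y ∧ z ≤ y + 1 := by
  have h1 : process x ω (n + 1) = ∑ y ∈ (process x ω n).support,
      ∑ i ∈ Finset.range (process x ω n y), ω (n, y, i) := rfl
  rw [h1, Finsupp.finsetSum_apply] at hz
  obtain ⟨y, hy, h2⟩ := Finset.exists_ne_zero_of_sum_ne_zero hz.ne'
  rw [Finsupp.finsetSum_apply] at h2
  obtain ⟨i, _, h3⟩ := Finset.exists_ne_zero_of_sum_ne_zero h2
  refine ⟨y, ?_, ?_⟩
  · rw [Finsupp.mem_support_iff] at hy
    omega
  · rcases hω (n, y, i) with h | h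
    · rw [h] at h3
      unfold two at h3
      rw [Finsupp.single_apply] at h3
      have : y + 1 = z := by
        by_contra hne
        rw [if_neg hne] at h3
        exact h3 rfl
      omega
    · rw [h] at h3
      unfold one at h3
      rw [Finsupp.single_apply] at h3
      have : y - 1 = z := by
        by_contra hne
        rw [if_neg hne] at h3
        exact h3 rfl
      omega

theorem position_le (hω : ∀ j : ℕ × ℤ × ℕ, ω j = two j.2.1 ∨ ω j = one j.2.1) (n : ℕ) :
    ∀ y, 0 < process x ω n y → y ≤ x + n := by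
  induction n with
  | zero =>
    intro y hy
    have h1 : process x ω 0 = Finsupp.single x 1 := rfl
    rw [h1, Finsupp.single_apply] at hy
    have : x = y := by
      by_contra hne
      rw [if_neg hne] at hy
      exact lt_irrefl _ hy
    omega
  | succ n ih =>
    intro z hz
    obtain ⟨y, hy, hle⟩ := parent hω hz
    have := ih y hy
    push_cast
    omega

theorem alive (hω : ∀ j : ℕ × ℤ × ℕ, ω j = two j.2.1 ∨ ω j = one j.2.1) (n : ℕ) :
    ∃ y, 0 < process x ω n y := by
  induction n with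
  | zero =>
    refine ⟨x, ?_⟩
    have h1 : process x ω 0 = Finsupp.single x 1 := rfl
    rw [h1, Finsupp.single_eq_same]
    exact one_pos
  | succ n ih =>
    obtain ⟨y, hy⟩ := ih
    rcases child hω hy with h | h
    · exact ⟨_, h⟩
    · exact ⟨_, h⟩

theorem eventually_empty (hw : Tendsto (fun n => weight BB (process x ω n)) atTop (𝓝 0)) (K : ℤ) :
    ∃ N : ℕ, ∀ n ≥ N, ∀ y ≤ K, process x ω n y = 0 := by
  have hpos : (0 : ENNReal) < BB K := by
    unfold BB
    rw [ENNReal.ofReal_pos]
    exact zpow_pos (by norm_num) K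
  obtain ⟨N, hN⟩ := eventually_atTop.1 (hw.eventually_lt_const hpos)
  refine ⟨N, fun n hn y hy => ?_⟩
  by_contra hne
  have h1 := hN n hn
  have h2 : BB K ≤ weight BB (process x ω n) := by
    rw [weight_tsum]
    refine le_trans ?_ (ENNReal.le_tsum y)
    have h3 : BB K ≤ BB y := by
      unfold BB
      apply ENNReal.ofReal_le_ofReal
      exact zpow_le_zpow_right_of_le_one₀ (by norm_num) (by norm_num) hy
    have h4 : (1 : ENNReal) ≤ (process x ω n y : ENNReal) := by
      exact_mod_cast Nat.one_le_iff_ne_zero.2 hne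
    calc BB K ≤ BB y := h3
      _ = 1 * BB y := (one_mul _).symm
      _ ≤ _ := by gcongr
  exact absurd h1 (not_lt.2 h2)

/-- sets unbounded to the right are visited again and again -/
theorem visits (hω : ∀ j : ℕ × ℤ × ℕ, ω j = two j.2.1 ∨ ω j = one j.2.1)
    (hw : Tendsto (fun n => weight BB (process x ω n)) atTop (𝓝 0)) {A : Set ℤ}
    (hA : ¬ BddAbove A) (N : ℕ) : ∃ n ≥ N, ∃ a ∈ A, process x ω n a ≠ 0 := by
  rw [not_bddAbove_iff] at hA
  obtain ⟨a, haA, ha⟩ := hA (x + N)
  obtain ⟨y, hy⟩ := alive (x := x) hω N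
  have hya : y < a := lt_of_le_of_lt (position_le hω N y hy) ha
  by_contra hcon
  push Not at hcon
  have hz : ∀ n ≥ N, process x ω n a = 0 := fun n hn => hcon n hn a haA
  have hkeep : ∀ m : ℕ, ∃ y, y < a ∧ 0 < process x ω (N + m) y := by
    intro m
    induction m with
    | zero => exact ⟨y, hya, hy⟩
    | succ m ih =>
      obtain ⟨y, hy1, hy2⟩ := ih
      have h0 : process x ω (N + (m + 1)) a = 0 := hz _ (by omega)
      rcases child hω hy2 with h | h
      · refine ⟨y + 1, ?_, h⟩
        rcases lt_or_eq_of_le (show y + 1 ≤ a by omega) with h2 | h2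
        · exact h2
        · rw [h2] at h
          have e : N + m + 1 = N + (m + 1) := by ring
          rw [e, h0] at h
          exact absurd h (lt_irrefl _)
      · exact ⟨y - 1, by omega, h⟩
  obtain ⟨M, hM⟩ := eventually_empty hw a
  obtain ⟨y', hy1, hy2⟩ := hkeep M
  have := hM (N + M) (by omega) y' hy1.le
  omega

theorem ae_good (x : ℤ) : ∀ᵐ ω ∂(law mu0), (∀ j : ℕ × ℤ × ℕ, ω j = two j.2.1 ∨ ω j = one j.2.1) ∧
    Tendsto (fun n => weight BB (process x ω n)) atTop (𝓝 0) := by
  filter_upwards [ae_offspring, ae_tendsto_weight mu0 BB (ENNReal.ofReal (121303 / 141267))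
    (by rw [ENNReal.ofReal_lt_one]; norm_num) (fun y => ENNReal.ofReal_ne_top) contraction x]
    with ω h1 h2
  exact ⟨h1, h2⟩

theorem extinction_one {A : Set ℤ} (hA : BddAbove A) (x : ℤ) : extinction mu0 A x = 1 := by
  obtain ⟨K, hK⟩ := hA
  unfold extinction
  have h : ∀ᵐ ω ∂(law mu0), ω ∈ {ω | ∃ N : ℕ, ∀ n ≥ N, ∀ y ∈ A, process x ω n y = 0} := by
    filter_upwards [ae_good x] with ω hω
    obtain ⟨N, hN⟩ := eventually_empty hω.2 K
    exact ⟨N, fun n hn y hy => hN n hn y (hK hy)⟩
  rw [measureReal_def, (prob_compl_eq_zero_iff₀ ?_).1 ?_]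
  · simp
  · exact NullMeasurableSet.of_compl (NullMeasurableSet.of_null (by
      rw [ae_iff] at h; exact h))
  · rw [ae_iff] at h; exact h

theorem extinction_zero {A : Set ℤ} (hA : ¬ BddAbove A) (x : ℤ) : extinction mu0 A x = 0 := by
  unfold extinction
  have h : ∀ᵐ ω ∂(law mu0), ω ∉ {ω | ∃ N : ℕ, ∀ n ≥ N, ∀ y ∈ A, process x ω n y = 0} := by
    filter_upwards [ae_good x] with ω hω
    rintro ⟨N, hN⟩
    obtain ⟨n, hn, a, ha, hne⟩ := visits hω.1 hω.2 hA N
    exact hne (hN n hn a ha)
  have h2 : (law mu0) {ω | ∃ N : ℕ, ∀ n ≥ N, ∀ y ∈ A, process x ω n y = 0} = 0 := by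
    rw [ae_iff] at h
    simpa using h
  rw [measureReal_def, h2]
  simp

theorem inClassC_mu0 : InClassC mu0 :=
  ⟨irreducible_mu0, quasiTransitive_mu0, fun x y => extinction_one (Set.finite_singleton x).bddAbove y⟩

theorem extinctionVectors_finite : (extinctionVectors mu0).Finite := by
  refine Set.Finite.subset (Set.toFinite {(fun _ : ℤ => (0 : ℝ)), (fun _ : ℤ => (1 : ℝ))}) ?_
  rintro z ⟨A, rfl⟩
  by_cases hA : BddAbove A
  · right
    exact funext (fun x => extinction_one hA x)
  · left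
    exact funext (fun x => extinction_zero hA x)

/-! ### fixed points -/

/-- conjugate of the generating function -/
noncomputable def TT (w : ℤ → ℝ) (x : ℤ) : ℝ :=
  28 / 31 * (2 * w (x + 1) - w (x + 1) ^ 2) + 3 / 31 * w (x - 1)

theorem genFun_one_sub (w : ℤ → ℝ) (x : ℤ) : genFun mu0 (fun y => 1 - w y) x = 1 - TT w x := by
  rw [genFun_mu0]
  unfold TT
  ring

theorem TT_mono {w w' : ℤ → ℝ} (h : ∀ x, w x ≤ w' x) (h1 : ∀ x, w' x ≤ 1) (x : ℤ) :
    TT w x ≤ TT w' x := by
  unfold TT
  have a1 := h (x + 1)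
  have a2 := h1 (x + 1)
  have a3 := h (x - 1)
  have : 2 * w (x + 1) - w (x + 1) ^ 2 ≤ 2 * w' (x + 1) - w' (x + 1) ^ 2 := by nlinarith
  linarith

/-- the exponential profile -/
noncomputable def AA (x : ℤ) : ℝ := (3 / 7 : ℝ) ^ x

theorem AA_pos (x : ℤ) : 0 < AA x := zpow_pos (by norm_num) x

theorem AA_succ (x : ℤ) : AA (x + 1) = 3 / 7 * AA x := by
  unfold AA
  rw [zpow_add₀ (by norm_num), zpow_one]
  ring

theorem AA_pred (x : ℤ) : AA (x - 1) = 7 / 3 * AA x := by
  unfold AA
  rw [zpow_sub₀ (by norm_num), zpow_one]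
  field_simp

/-- the supersolution -/
noncomputable def up (t : ℝ) (x : ℤ) : ℝ := min 1 (t * AA x)

/-- the subsolution -/
noncomputable def lo (t : ℝ) (x : ℤ) : ℝ := max 0 (t * AA x - 2 * (t * AA x) ^ 2)

theorem up_nonneg {t : ℝ} (ht : 0 < t) (x : ℤ) : 0 ≤ up t x :=
  le_min zero_le_one (mul_nonneg ht.le (AA_pos x).le)

theorem up_le_one (t : ℝ) (x : ℤ) : up t x ≤ 1 := min_le_left _ _

theorem lo_nonneg (t : ℝ) (x : ℤ) : 0 ≤ lo t x := le_max_left _ _

theorem lo_le_up {t : ℝ} (ht : 0 < t) (x : ℤ) : lo t x ≤ up t x := by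
  have hp : 0 < t * AA x := mul_pos ht (AA_pos x)
  unfold lo up
  apply max_le
  · exact le_min zero_le_one hp.le
  · apply le_min
    · nlinarith [sq_nonneg (2 * (t * AA x) - 1)]
    · nlinarith [sq_nonneg (t * AA x)]

theorem TT_up_le {t : ℝ} (ht : 0 < t) (x : ℤ) : TT (up t) x ≤ up t x := by
  have h1 := up_nonneg ht (x + 1)
  have h2 := up_le_one t (x + 1)
  have h3 := up_le_one t (x - 1)
  unfold TT
  have h4 : up t (x + 1) ≤ t * AA (x + 1) := min_le_right _ _
  have h5 : up t (x - 1) ≤ t * AA (x - 1) := min_le_right _ _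
  rw [AA_succ] at h4
  rw [AA_pred] at h5
  apply le_min
  · nlinarith [sq_nonneg (1 - up t (x + 1))]
  · nlinarith [sq_nonneg (up t (x + 1))]

theorem lo_le_TT {t : ℝ} (ht : 0 < t) (x : ℤ) : lo t x ≤ TT (lo t) x := by
  have hp : 0 < t * AA x := mul_pos ht (AA_pos x)
  have h1 := lo_nonneg t (x + 1)
  have h2 : lo t (x + 1) ≤ 1 := (lo_le_up ht _).trans (up_le_one t _)
  have h3 := lo_nonneg t (x - 1)
  have h4 : t * AA (x + 1) - 2 * (t * AA (x + 1)) ^ 2 ≤ lo t (x + 1) := le_max_right _ _
  have h5 : t * AA (x - 1) - 2 * (t * AA (x - 1)) ^ 2 ≤ lo t (x - 1) := le_max_right _ _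
  have h6 : lo t (x + 1) ≤ t * AA (x + 1) := (lo_le_up ht _).trans (min_le_right _ _)
  rw [AA_succ] at h4 h6
  rw [AA_pred] at h5
  unfold TT
  have hTT0 : 0 ≤ 28 / 31 * (2 * lo t (x + 1) - lo t (x + 1) ^ 2) + 3 / 31 * lo t (x - 1) := by
    nlinarith
  apply max_le hTT0
  set u := t * AA x with hu
  have e4 : t * (3 / 7 * AA x) = 3 / 7 * u := by rw [hu]; ring
  have e5 : t * (7 / 3 * AA x) = 7 / 3 * u := by rw [hu]; ring
  rw [e4] at h4 h6
  rw [e5] at h5
  have h7 : lo t (x + 1) ^ 2 ≤ (3 / 7 * u) ^ 2 := pow_le_pow_left₀ h1 h6 2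
  nlinarith [sq_nonneg u]

/-- monotone iteration from the supersolution -/
noncomputable def it (t : ℝ) : ℕ → ℤ → ℝ
  | 0 => up t
  | n + 1 => TT (it t n)

theorem it_bounds {t : ℝ} (ht : 0 < t) (n : ℕ) :
    (∀ x, lo t x ≤ it t n x) ∧ (∀ x, it t n x ≤ up t x) ∧ (∀ x, it t (n + 1) x ≤ it t n x) := by
  induction n with
  | zero => exact ⟨lo_le_up ht, fun _ => le_rfl, TT_up_le ht⟩
  | succ n ih =>
    obtain ⟨h1, h2, h3⟩ := ih
    have hle1 : ∀ x, it t n x ≤ 1 := fun x => (h2 x).trans (up_le_one t x)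
    refine ⟨fun x => ?_, fun x => (h3 x).trans (h2 x), fun x => ?_⟩
    · exact (lo_le_TT ht x).trans (TT_mono h1 hle1 x)
    · exact TT_mono h3 hle1 x

/-- the limit profile -/
noncomputable def lim (t : ℝ) (x : ℤ) : ℝ := ⨅ n, it t n x

theorem tendsto_it {t : ℝ} (ht : 0 < t) (x : ℤ) : Tendsto (fun n => it t n x) atTop (𝓝 (lim t x)) := by
  apply tendsto_atTop_ciInf
  · exact antitone_nat_of_succ_le (fun n => (it_bounds ht n).2.2 x)
  · refine ⟨0, ?_⟩
    rintro _ ⟨n, rfl⟩
    exact (lo_nonneg t x).trans ((it_bounds ht n).1 x)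

theorem lo_le_lim {t : ℝ} (ht : 0 < t) (x : ℤ) : lo t x ≤ lim t x :=
  ge_of_tendsto' (tendsto_it ht x) (fun n => (it_bounds ht n).1 x)

theorem lim_le_up {t : ℝ} (ht : 0 < t) (x : ℤ) : lim t x ≤ up t x :=
  le_of_tendsto' (tendsto_it ht x) (fun n => (it_bounds ht n).2.1 x)

theorem TT_lim {t : ℝ} (ht : 0 < t) (x : ℤ) : TT (lim t) x = lim t x := by
  have h1 : Tendsto (fun n => it t (n + 1) x) atTop (𝓝 (lim t x)) :=
    (tendsto_it ht x).comp (tendsto_add_atTop_nat 1)
  have h2 : Tendsto (fun n => it t (n + 1) x) atTop (𝓝 (TT (lim t) x)) := by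
    have a1 := tendsto_it ht (x + 1)
    have a2 := tendsto_it ht (x - 1)
    exact (((a1.const_mul 2).sub (a1.pow 2)).const_mul (28 / 31)).add (a2.const_mul (3 / 31))
  exact tendsto_nhds_unique h2 h1

/-- the fixed point with parameter `t` -/
noncomputable def zt (t : ℝ) (x : ℤ) : ℝ := 1 - lim t x

theorem zt_mem {t : ℝ} (ht : 0 < t) : zt t ∈ fixedPoints mu0 := by
  refine ⟨fun x => ⟨?_, ?_⟩, ?_⟩
  · have := (lim_le_up ht x).trans (up_le_one t x)
    unfold zt; linarith
  · have := (lo_nonneg t x).trans (lo_le_lim ht x)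
    unfold zt; linarith
  · funext x
    have h : zt t = fun y => 1 - lim t y := rfl
    rw [h, genFun_one_sub, TT_lim ht]

theorem lim_lt_imp {t t' : ℝ} (ht : 0 < t) (htt : t < t') : lim t ≠ lim t' := by
  intro h
  have ht' : 0 < t' := ht.trans htt
  -- choose x with AA x small
  have hpos : 0 < (t' - t) / (2 * t' ^ 2) := by
    apply div_pos (by linarith)
    positivity
  obtain ⟨n, hn⟩ := exists_pow_lt_of_lt_one hpos (by norm_num : (3 / 7 : ℝ) < 1)
  have hA : AA (n : ℤ) = (3 / 7 : ℝ) ^ n := by unfold AA; rw [zpow_natCast]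
  rw [← hA] at hn
  have h1 : lim t n ≤ t * AA n := (lim_le_up ht n).trans (min_le_right _ _)
  have h2 : t' * AA n - 2 * (t' * AA n) ^ 2 ≤ lim t' n := (le_max_right _ _).trans (lo_le_lim ht' n)
  rw [← h] at h2
  have hAp := AA_pos (n : ℤ)
  rw [lt_div_iff₀ (by positivity)] at hn
  nlinarith

theorem not_countable : ¬ (fixedPoints mu0 \ extinctionVectors mu0).Countable := by
  intro hc
  have hF : (fixedPoints mu0).Countable := by
    refine Set.Countable.mono ?_ (hc.union extinctionVectors_finite.countable)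
    intro z hz
    by_cases h : z ∈ extinctionVectors mu0
    · exact Or.inr h
    · exact Or.inl ⟨hz, h⟩
  have hinj : Set.InjOn zt (Set.Ioi (0 : ℝ)) := by
    intro t ht t' ht' h
    have hlim : lim t = lim t' := by
      funext x
      have := congrFun h x
      unfold zt at this
      linarith
    rcases lt_trichotomy t t' with h1 | h1 | h1
    · exact absurd hlim (lim_lt_imp ht h1)
    · exact h1
    · exact absurd hlim.symm (lim_lt_imp ht' h1)
  have himg : (zt '' Set.Ioi (0 : ℝ)).Countable := by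
    refine hF.mono ?_
    rintro _ ⟨t, ht, rfl⟩
    exact zt_mem ht
  have hI : (Set.Ioi (0 : ℝ)).Countable := Set.countable_of_injective_of_countable_image hinj himg
  have h1 := Cardinal.le_aleph0_iff_set_countable.2 hI
  rw [Cardinal.mk_Ioi_real] at h1
  exact absurd h1 (not_le.2 Cardinal.aleph0_lt_continuum)

end Pool.Agent.Hhelper96.BRW
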