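import Pool.Agent.Hhelper96.BRW.Defs

/-!
Measurability and the first moment identity for branching random walks.
-/

set_option autoImplicit false
set_option linter.unusedSectionVars false

open MeasureTheory ProbabilityTheory

namespace Pool.Agent.Hhelper96.BRW

variable {X : Type}

instance discreteConf : DiscreteMeasurableSpace (X →₀ ℕ) := ⟨fun _ => trivial⟩

/-- the sigma-algebra of the first `n` generations -/
abbrev sig (X : Type) (n : ℕ) : MeasurableSpace (ℕ × X × ℕ → (X →₀ ℕ)) :=
  ⨆ j ∈ {j : ℕ × X × ℕ | j.1 < n}, MeasurableSpace.comap (fun ω => ω j) ⊤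

theorem sig_le (n : ℕ) : sig X n ≤ MeasurableSpace.pi := by
  unfold sig
  refine iSup₂_le (fun j _ => ?_)
  rw [← measurable_iff_comap_le]
  exact measurable_pi_apply j

theorem sig_mono {n m : ℕ} (h : n ≤ m) : sig X n ≤ sig X m := by
  unfold sig
  refine iSup₂_le (fun j hj => ?_)
  exact le_iSup₂_of_le j (lt_of_lt_of_le hj h) le_rfl

theorem measurable_coord {n : ℕ} {j : ℕ × X × ℕ} (hj : j.1 < n) :
    @Measurable _ _ (sig X n) _ (fun ω : ℕ × X × ℕ → (X →₀ ℕ) => ω j) := by
  rw [measurable_iff_comap_le]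
  exact le_iSup₂_of_le (f := fun (j : ℕ × X × ℕ) (_ : j ∈ {j : ℕ × X × ℕ | j.1 < n}) =>
    MeasurableSpace.comap (fun ω : ℕ × X × ℕ → (X →₀ ℕ) => ω j) ⊤) j hj le_rfl

variable [Countable X]

theorem measurable_process (x : X) (n : ℕ) :
    @Measurable _ _ (sig X n) _ (fun ω : ℕ × X × ℕ → (X →₀ ℕ) => process x ω n) := by
  induction n with
  | zero =>
    have : (fun ω : ℕ × X × ℕ → (X →₀ ℕ) => process x ω 0) = fun _ => Finsupp.single x 1 := rfl
    rw [this]
    exact @measurable_const _ _ _ (sig X 0) _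
  | succ n ih =>
    let _ : MeasurableSpace (ℕ × X × ℕ → (X →₀ ℕ)) := sig X (n + 1)
    refine measurable_to_countable' (fun g => ?_)
    have hset : (fun ω : ℕ × X × ℕ → (X →₀ ℕ) => process x ω (n + 1)) ⁻¹' {g} =
        ⋃ g' : X →₀ ℕ, ((fun ω => process x ω n) ⁻¹' {g'} ∩
          (fun ω : ℕ × X × ℕ → (X →₀ ℕ) => g'.sum (fun y k => ∑ i ∈ Finset.range k, ω (n, y, i))) ⁻¹'
            {g}) := by
      ext ω
      simp only [Set.mem_preimage, Set.mem_singleton_iff, Set.mem_iUnion, Set.mem_inter_iff]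
      constructor
      · intro h
        exact ⟨process x ω n, rfl, h⟩
      · rintro ⟨g', h1, h2⟩
        have h3 : process x ω (n + 1) =
            (process x ω n).sum (fun y k => ∑ i ∈ Finset.range k, ω (n, y, i)) := rfl
        rw [h3, h1]
        exact h2
    rw [hset]
    refine MeasurableSet.iUnion (fun g' => MeasurableSet.inter ?_ ?_)
    · have := ih (MeasurableSet.singleton g')
      exact sig_mono (Nat.le_succ n) _ this
    · have hm : Measurable (fun ω : ℕ × X × ℕ → (X →₀ ℕ) =>
          g'.sum (fun y k => ∑ i ∈ Finset.range k, ω (n, y, i))) := by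
        unfold Finsupp.sum
        refine Finset.measurable_sum _ (fun y _ => ?_)
        refine Finset.measurable_sum _ (fun i _ => ?_)
        exact measurable_coord (Nat.lt_succ_self n)
      exact hm (MeasurableSet.singleton g)

theorem measurable_process' (x : X) (n : ℕ) :
    Measurable (fun ω : ℕ × X × ℕ → (X →₀ ℕ) => process x ω n) :=
  (measurable_process x n).mono (sig_le n) le_rfl

variable (μ : X → PMF (X →₀ ℕ))

instance isProbabilityMeasure_law : IsProbabilityMeasure (law μ) := by
  unfold law; infer_instance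

theorem indep_coord (n : ℕ) (y : X) (i : ℕ) :
    Indep (sig X n) (MeasurableSpace.comap (fun ω : ℕ × X × ℕ → (X →₀ ℕ) => ω (n, y, i)) ⊤)
      (law μ) := by
  have h1 : iIndepFun (fun (j : ℕ × X × ℕ) (ω : ℕ × X × ℕ → (X →₀ ℕ)) => ω j) (law μ) :=
    iIndepFun_infinitePi (X := fun (_ : ℕ × X × ℕ) (f : X →₀ ℕ) => f) (fun _ => measurable_id)
  have h2 := indep_iSup_of_disjoint
    (m := fun j : ℕ × X × ℕ => MeasurableSpace.comap (fun ω : ℕ × X × ℕ → (X →₀ ℕ) => ω j) ⊤)
    (fun j => by rw [← measurable_iff_comap_le]; exact measurable_pi_apply j) h1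
    (S := {j : ℕ × X × ℕ | j.1 < n}) (T := {(n, y, i)}) (by
      rw [Set.disjoint_singleton_right]
      intro h
      exact lt_irrefl n h)
  have h3 : (⨆ j ∈ ({(n, y, i)} : Set (ℕ × X × ℕ)),
      MeasurableSpace.comap (fun ω : ℕ × X × ℕ → (X →₀ ℕ) => ω j) ⊤) =
      MeasurableSpace.comap (fun ω : ℕ × X × ℕ → (X →₀ ℕ) => ω (n, y, i)) ⊤ := by
    simp
  rw [h3] at h2
  exact h2

theorem lintegral_coord (n : ℕ) (y : X) (i : ℕ) (φ : (X →₀ ℕ) → ENNReal) :
    ∫⁻ ω, φ (ω (n, y, i)) ∂(law μ) = ∑' f, μ y f * φ f := by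
  have h1 : MeasurePreserving (Function.eval (n, y, i)) (law μ) ((μ y).toMeasure) :=
    measurePreserving_eval_infinitePi (fun j : ℕ × X × ℕ => (μ j.2.1).toMeasure) (n, y, i)
  have h2 : ∫⁻ ω, φ (ω (n, y, i)) ∂(law μ) = ∫⁻ f, φ f ∂((μ y).toMeasure) := by
    rw [← h1.lintegral_comp (f := φ) (Measurable.of_discrete)]
  rw [h2, lintegral_countable']
  refine tsum_congr (fun f => ?_)
  rw [PMF.toMeasure_apply_singleton _ _ (MeasurableSet.singleton f), mul_comm]

/-- total weight of a configuration -/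
noncomputable def weight (B : X → ENNReal) (f : X →₀ ℕ) : ENNReal :=
  f.sum (fun y k => (k : ENNReal) * B y)

theorem weight_add (B : X → ENNReal) (f g : X →₀ ℕ) : weight B (f + g) = weight B f + weight B g := by
  classical
  unfold weight
  apply Finsupp.sum_add_index'
  · intro a; simp
  · intro a b c; push_cast; ring

theorem weight_zero (B : X → ENNReal) : weight B 0 = 0 := by simp [weight]

theorem weight_single (B : X → ENNReal) (y : X) (k : ℕ) :
    weight B (Finsupp.single y k) = k * B y := by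
  unfold weight
  rw [Finsupp.sum_single_index]
  simp

theorem weight_finsetSum {ι : Type} (B : X → ENNReal) (s : Finset ι) (f : ι → (X →₀ ℕ)) :
    weight B (∑ i ∈ s, f i) = ∑ i ∈ s, weight B (f i) := by
  classical
  induction s using Finset.induction_on with
  | empty => simp [weight_zero]
  | insert a s ha ih => rw [Finset.sum_insert ha, Finset.sum_insert ha, weight_add, ih]

theorem weight_tsum (B : X → ENNReal) (f : X →₀ ℕ) : weight B f = ∑' y, (f y : ENNReal) * B y := by
  unfold weight Finsupp.sum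
  rw [tsum_eq_sum (s := f.support)]
  intro y hy
  rw [Finsupp.notMem_support_iff.1 hy]
  simp

theorem weight_process_succ (B : X → ENNReal) (x : X) (ω : ℕ × X × ℕ → (X →₀ ℕ)) (n : ℕ) :
    weight B (process x ω (n + 1)) =
      ∑' y, ∑' i : ℕ, (if i < process x ω n y then 1 else 0) * weight B (ω (n, y, i)) := by
  have h1 : process x ω (n + 1) = ∑ y ∈ (process x ω n).support,
      ∑ i ∈ Finset.range (process x ω n y), ω (n, y, i) := rfl
  rw [h1, weight_finsetSum, tsum_eq_sum (s := (process x ω n).support)]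
  · refine Finset.sum_congr rfl (fun y _ => ?_)
    rw [weight_finsetSum, tsum_eq_sum (s := Finset.range (process x ω n y))]
    · refine Finset.sum_congr rfl (fun i hi => ?_)
      rw [if_pos (Finset.mem_range.1 hi), one_mul]
    · intro i hi
      rw [if_neg (by simpa using hi), zero_mul]
  · intro y hy
    rw [Finsupp.notMem_support_iff.1 hy]
    simp

/-- the first moment recursion -/
theorem lintegral_weight_succ (B : X → ENNReal) (κ : ENNReal)
    (hκ : ∀ y, ∑' f, μ y f * weight B f = κ * B y) (x : X) (n : ℕ) :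
    ∫⁻ ω, weight B (process x ω (n + 1)) ∂(law μ) = κ * ∫⁻ ω, weight B (process x ω n) ∂(law μ) := by
  have hm1 : ∀ (y : X) (i : ℕ), @Measurable _ _ (sig X n) _
      (fun ω : ℕ × X × ℕ → (X →₀ ℕ) => if i < process x ω n y then (1 : ENNReal) else 0) := by
    intro y i
    have h1 : Measurable (fun g : X →₀ ℕ => if i < g y then (1 : ENNReal) else 0) :=
      Measurable.of_discrete
    exact h1.comp (measurable_process x n)
  have hm2 : ∀ (y : X) (i : ℕ), @Measurable _ _
      (MeasurableSpace.comap (fun ω : ℕ × X × ℕ → (X →₀ ℕ) => ω (n, y, i)) ⊤) _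
      (fun ω : ℕ × X × ℕ → (X →₀ ℕ) => weight B (ω (n, y, i))) := by
    intro y i
    have h1 : Measurable (fun g : X →₀ ℕ => weight B g) := Measurable.of_discrete
    exact h1.comp (comap_measurable (m := (⊤ : MeasurableSpace (X →₀ ℕ)))
      (fun ω : ℕ × X × ℕ → (X →₀ ℕ) => ω (n, y, i)))
  have hle2 : ∀ (y : X) (i : ℕ),
      MeasurableSpace.comap (fun ω : ℕ × X × ℕ → (X →₀ ℕ) => ω (n, y, i)) ⊤ ≤
      (MeasurableSpace.pi : MeasurableSpace (ℕ × X × ℕ → (X →₀ ℕ))) := by
    intro y i
    rw [← measurable_iff_comap_le]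
    exact measurable_pi_apply _
  have hmul : ∀ (y : X) (i : ℕ), ∫⁻ ω, (if i < process x ω n y then (1 : ENNReal) else 0) *
      weight B (ω (n, y, i)) ∂(law μ) =
      (∫⁻ ω, (if i < process x ω n y then (1 : ENNReal) else 0) ∂(law μ)) * (κ * B y) := by
    intro y i
    rw [lintegral_mul_eq_lintegral_mul_lintegral_of_independent_measurableSpace (sig_le n)
      (hle2 y i) (indep_coord μ n y i) (hm1 y i) (hm2 y i), lintegral_coord, hκ]
  have hM1 : ∀ (y : X) (i : ℕ), Measurable
      (fun ω : ℕ × X × ℕ → (X →₀ ℕ) => if i < process x ω n y then (1 : ENNReal) else 0) :=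
    fun y i => (hm1 y i).mono (sig_le n) le_rfl
  have hM2 : ∀ (y : X) (i : ℕ), Measurable
      (fun ω : ℕ × X × ℕ → (X →₀ ℕ) => weight B (ω (n, y, i))) :=
    fun y i => (hm2 y i).mono (hle2 y i) le_rfl
  have hM12 : ∀ (y : X) (i : ℕ), Measurable (fun ω : ℕ × X × ℕ → (X →₀ ℕ) =>
      (if i < process x ω n y then (1 : ENNReal) else 0) * weight B (ω (n, y, i))) :=
    fun y i => (hM1 y i).mul (hM2 y i)
  simp only [weight_process_succ]
  rw [lintegral_tsum (fun y => (Measurable.tsum fun i => hM12 y i).aemeasurable)]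
  have h3 : ∀ y : X, ∫⁻ ω, ∑' i : ℕ, (if i < process x ω n y then (1 : ENNReal) else 0) *
      weight B (ω (n, y, i)) ∂(law μ) =
      κ * ∫⁻ ω, (process x ω n y : ENNReal) * B y ∂(law μ) := by
    intro y
    rw [lintegral_tsum (fun i => (hM12 y i).aemeasurable)]
    simp only [hmul]
    rw [ENNReal.tsum_mul_right, ← lintegral_tsum (fun i => (hM1 y i).aemeasurable)]
    have h4 : ∀ ω : ℕ × X × ℕ → (X →₀ ℕ), ∑' i : ℕ, (if i < process x ω n y then (1 : ENNReal) else 0) =
        (process x ω n y : ENNReal) := by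
      intro ω
      rw [tsum_eq_sum (s := Finset.range (process x ω n y))]
      · rw [Finset.sum_congr rfl (fun i hi => if_pos (Finset.mem_range.1 hi))]
        simp
      · intro i hi
        rw [if_neg (by simpa using hi)]
    simp only [h4]
    have h5 : Measurable (fun ω : ℕ × X × ℕ → (X →₀ ℕ) => (process x ω n y : ENNReal)) := by
      have h6 : Measurable (fun g : X →₀ ℕ => (g y : ENNReal)) := Measurable.of_discrete
      exact h6.comp (measurable_process' x n)
    rw [lintegral_mul_const _ h5]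
    ring
  simp only [h3]
  rw [ENNReal.tsum_mul_left]
  congr 1
  rw [← lintegral_tsum]
  · congr 1
    funext ω
    rw [weight_tsum]
  · intro y
    have h6 : Measurable (fun g : X →₀ ℕ => (g y : ENNReal) * B y) := Measurable.of_discrete
    exact (h6.comp (measurable_process' x n)).aemeasurable

theorem lintegral_weight (B : X → ENNReal) (κ : ENNReal)
    (hκ : ∀ y, ∑' f, μ y f * weight B f = κ * B y) (x : X) (n : ℕ) :
    ∫⁻ ω, weight B (process x ω n) ∂(law μ) = κ ^ n * B x := by
  induction n with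
  | zero =>
    have : ∀ ω : ℕ × X × ℕ → (X →₀ ℕ), weight B (process x ω 0) = B x := by
      intro ω
      have h : process x ω 0 = Finsupp.single x 1 := rfl
      rw [h, weight_single]
      simp
    simp [this]
  | succ n ih =>
    rw [lintegral_weight_succ μ B κ hκ, ih, pow_succ]
    ring

/-- If the mean weight contracts, then the weight of the configuration tends to zero. -/
theorem ae_tendsto_weight (B : X → ENNReal) (κ : ENNReal) (hκ1 : κ < 1) (hB : ∀ y, B y ≠ ⊤)
    (hκ : ∀ y, ∑' f, μ y f * weight B f = κ * B y) (x : X) :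
    ∀ᵐ ω ∂(law μ), Filter.Tendsto (fun n => weight B (process x ω n)) Filter.atTop (nhds 0) := by
  have hmeas : ∀ n, Measurable (fun ω : ℕ × X × ℕ → (X →₀ ℕ) => weight B (process x ω n)) := by
    intro n
    have h1 : Measurable (fun g : X →₀ ℕ => weight B g) := Measurable.of_discrete
    exact h1.comp (measurable_process' x n)
  have hfin : ∫⁻ ω, ∑' n, weight B (process x ω n) ∂(law μ) ≠ ⊤ := by
    rw [lintegral_tsum (fun n => (hmeas n).aemeasurable)]
    simp only [lintegral_weight μ B κ hκ]
    rw [ENNReal.tsum_mul_right, ENNReal.tsum_geometric]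
    apply ENNReal.mul_ne_top
    · rw [ENNReal.inv_ne_top]
      exact (tsub_pos_of_lt hκ1).ne'
    · exact hB x
  filter_upwards [ae_lt_top (Measurable.tsum hmeas) hfin] with ω hω
  exact ENNReal.tendsto_atTop_zero_of_tsum_ne_top hω.ne

end Pool.Agent.Hhelper96.BRW
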